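import Pool.Agent.Run7.h384.TAT.Defs
import Pool.Agent.Run7.h384.TAT.FamD

/-!
# The Tate conjecture for powers of a variety over a finite field: the middle codimension suffices

Let `X` be a smooth projective variety of dimension `n ≥ 1` over a finite field and `r ≥ 3`.

1. The Tate conjecture for the power `X ^ r` in the single codimension `⌊n r / 2⌋` implies the
   Lefschetz standard conjecture `B` for `X` and the Tate conjecture for `X, X ^ 2, …, X ^ r` in all
   codimensions.
2. If the order of the pole of the zeta function of `X ^ r` at the single point `⌊n r / 2⌋` is the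
   rank of the group of cycles modulo numerical equivalence, then this is so at all points for
   `X, X ^ 2, …, X ^ r`.
3. More precisely, for `r ≥ 2` and `n - 1 ≤ j ≤ n r / 2`, `j < n (r - 1)`, the Tate conjecture
   for `X ^ r` in the codimension `j` implies `B` for `X` and the Tate conjecture for `X ^ r` in all
   codimensions `i ≤ j` and `i ≥ n r - j`. For `r = 2` this is the codimension `j = n - 1`, and then
   only the codimension `n` of `X × X` is missing.
4. Let `Z` be a variety of dimension `m ≥ 1` which satisfies `B` (for example a curve, a surface or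
   an abelian variety). The Tate conjecture for `Z × X × X` in the codimension `⌊(2 n + m) / 2⌋`
   implies `B` for `X` and the Tate conjecture for `Z × X × X` in all codimensions.
-/

open Pool.Agent.H914 Pool.Agent.H914.VarClass Pool.Agent.H914.VarClass.Obj Pool.Agent.W534
  Pool.Agent.Y163 Pool.Agent.Run7.h384.TAT

universe u v

/-- The Tate conjecture in the middle codimension of a power. -/
theorem Pool.Agent.Results.MP_950c68_ag.OneMiddleCodimension.result {k : Type u} [Field k]
    {𝒱 : VarClass k} {ops : CycleOps 𝒱} {W : WeilCohomology.{u, v} ops} {p : ℕ}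
    (Φ : FrobSystem W p) (X : 𝒱.Obj) (hn : 1 ≤ X.dim) (D : X.Cycles) (hD : X.IsCyc 1 D)
    (hHL : HardLefschetz W X D) :
    (∀ m, 1 ≤ m → TateIn Φ (pw X (m + 1)) ((m + 2) * X.dim / 2) →
      LefschetzB W X D ∧ ∀ s ≤ m + 1, TateAll Φ (pw X s)) ∧
    (1 < p → ∀ σ : W.K →+* ℂ, (∀ Y, RiemannHyp Φ σ Y) →
      ∀ m, 1 ≤ m → PoleFormula Φ σ (pw X (m + 1)) ((m + 2) * X.dim / 2) →
        ∀ s ≤ m + 1, PoleAll Φ σ (pw X s)) ∧
    (∀ m j, X.dim ≤ j + 1 → 2 * j ≤ (m + 2) * X.dim → j + 1 ≤ (m + 1) * X.dim →
      Spreads Φ X D m j) ∧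
    (∀ (Z : 𝒱.Obj) (E : Z.Cycles), 1 ≤ Z.dim → (1 : W.H Z) ≠ 0 → Z.IsCyc 1 E →
      HardLefschetz W Z E → LefschetzB W Z E →
      TateIn Φ (Z.prod (X.prod X)) ((2 * X.dim + Z.dim) / 2) →
        LefschetzB W X D ∧ TateAll Φ (Z.prod (X.prod X))) := by
  refine ⟨fun m hm h => tate_middle hD hHL hn hm h, fun hp σ hRH m hm h s hs i hi => ?_,
    fun m j h1 h2 h3 h => tate_power hD hHL h1 h2 h3 h,
    fun Z E hm h1 hE hHLZ hBZ h => tate_times hD hHL hn hE hHLZ hBZ h1 hm h⟩
  rw [pw_dim'] at hi
  exact pole_middle hp hRH hD hHL hn hm h s hs i hi
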